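import Pool.Agent.Lib.P9fb79a.Univ

set_option autoImplicit false

namespace Pool.Agent.Results.MP_9fb79a_gt.SmythPower

open Pool.Agent.Lib.P9fb79a.Univ

universe v

/-- There is a `T0` space `X` which is well-filtered determined (tested against the well-filtered
spaces of an arbitrary universe `v`) while its Smyth power space, which is `T0`, has an irreducible
closed subset `A` that is not a `WD` set: for a continuous map `f` into a well-filtered space `Y`
the closure of `f(A)` is not the closure of a point. -/
theorem result : ∃ (X : Type) (_ : TopologicalSpace X),
    T0Space X ∧ WellFilteredDetermined.{0, v} X ∧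
    T0Space (Smyth X) ∧ ∃ A : Set (Smyth X), IsClosed A ∧ IsIrreducible A ∧
      ∃ (Y : Type) (_ : TopologicalSpace Y) (f : Smyth X → Y), WellFiltered Y ∧ Continuous f ∧
        ¬ ∃ y : Y, closure (f '' A) = closure {y} :=
  main

end Pool.Agent.Results.MP_9fb79a_gt.SmythPower
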